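import Pool.Agent.H84.B.TargetsM

/-!
# Module C5 of MP_02e9fb_an: the final assembly
-/

open Filter Topology MeasureTheory
open Pool.Agent.H84.B

namespace Pool.Agent.H69.BE

open Classical in
/-- the prime attached to the index `e` -/
noncomputable def pp (e : ℕ) : ℕ :=
  if (Nat.unpair e).1.Prime ∧ (Nat.unpair e).1 ≠ 2 then (Nat.unpair e).1 else 3

lemma pp_prime (e : ℕ) : (pp e).Prime ∧ pp e ≠ 2 := by
  unfold pp
  split_ifs with h
  · exact h
  · exact ⟨Nat.prime_three, by norm_num⟩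

lemma pp_pair {q : ℕ} (hq : q.Prime) (hq2 : q ≠ 2) (i : ℕ) : pp (Nat.pair q i) = q := by
  unfold pp
  rw [Nat.unpair_pair]
  simp [hq, hq2]

/-- the super-increasing sequence -/
noncomputable def nn : ℕ → ℕ
  | 0 => 1
  | e + 1 => nn e * pp e * 2 ^ (e + 5) * (e + 1) ^ 2

lemma nn_pos (e : ℕ) : 0 < nn e := by
  induction e with
  | zero => simp [nn]
  | succ e ih =>
    have h := (pp_prime e).1.pos
    rw [nn]
    positivity

lemma nn_dvd (e : ℕ) : pp e * nn e ∣ nn (e + 1) := by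
  rw [nn]
  exact ⟨2 ^ (e + 5) * (e + 1) ^ 2, by ring⟩

lemma nn_sum (e : ℕ) : 2 ^ (e + 4) * (∑ i ∈ Finset.range e, i * nn i) ≤ nn e := by
  induction e with
  | zero => simp [nn]
  | succ e ih =>
    have h1 : (∑ i ∈ Finset.range e, i * nn i) ≤ nn e := by
      refine le_trans ?_ ih
      exact Nat.le_mul_of_pos_left _ (by positivity)
    rw [Finset.sum_range_succ, nn]
    have h2 : 1 ≤ pp e := (pp_prime e).1.pos
    calc 2 ^ (e + 1 + 4) * (∑ i ∈ Finset.range e, i * nn i + e * nn e)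
        ≤ 2 ^ (e + 5) * (nn e + e * nn e) := by
          have : 2 ^ (e + 1 + 4) = 2 ^ (e + 5) := by ring
          rw [this]
          exact Nat.mul_le_mul_left _ (by omega)
      _ = nn e * 1 * 2 ^ (e + 5) * (e + 1) := by ring
      _ ≤ nn e * pp e * 2 ^ (e + 5) * (e + 1) ^ 2 := by
          have h3 : e + 1 ≤ (e + 1) ^ 2 := by nlinarith
          gcongr

/-- the set of values -/
def SS : Set ℤ := {s | ∃ (q : ℕ) (g : ℕ →₀ ℤ), q.Prime ∧ (∀ e, g e ≠ 0 → pp e = q) ∧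
  (∀ e, (g e).natAbs ≤ e) ∧ AdmF (Int.castRingHom (ZMod q)) g ∧
  s = g.sum fun e x => x * (nn e : ℤ)}

lemma exists_kk (k1 k2 : ℤ) : ∃ l1 l2 : ℤ, l1 ≠ 0 ∧ l2 ≠ 0 ∧ l1 ≠ l2 ∧
    (k1 = 0 ∨ k1 = l1 ∨ k1 = l2) ∧ (k2 = 0 ∨ k2 = l1 ∨ k2 = l2) := by
  by_cases h1 : k1 = 0
  · by_cases h2 : k2 = 0
    · exact ⟨1, 2, by norm_num, by norm_num, by norm_num, Or.inl h1, Or.inl h2⟩
    · exact ⟨k2, 2 * k2, h2, by omega, by omega, Or.inl h1, Or.inr (Or.inl rfl)⟩
  · by_cases h2 : k2 = 0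
    · exact ⟨k1, 2 * k1, h1, by omega, by omega, Or.inr (Or.inl rfl), Or.inl h2⟩
    · by_cases h3 : k1 = k2
      · exact ⟨k1, 2 * k1, h1, by omega, by omega, Or.inr (Or.inl rfl), Or.inr (Or.inl h3.symm)⟩
      · exact ⟨k1, k2, h1, h2, h3, Or.inr (Or.inl rfl), Or.inr (Or.inr rfl)⟩

lemma exists_q (l1 l2 : ℤ) (h1 : l1 ≠ 0) (h2 : l2 ≠ 0) (h3 : l1 ≠ l2) :
    ∃ q : ℕ, q.Prime ∧ q ≠ 2 ∧ (l1 : ZMod q) ≠ 0 ∧ (l2 : ZMod q) ≠ 0 ∧
      (l1 : ZMod q) ≠ (l2 : ZMod q) := by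
  obtain ⟨q, hq, hqp⟩ := Nat.exists_infinite_primes (l1.natAbs + l2.natAbs + 3)
  have key : ∀ l : ℤ, l ≠ 0 → l.natAbs < q → (l : ZMod q) ≠ 0 := by
    intro l hl hlt h
    rw [ZMod.intCast_zmod_eq_zero_iff_dvd] at h
    have := Int.natAbs_dvd_natAbs.2 h
    rw [Int.natAbs_natCast] at this
    have hpos : 0 < l.natAbs := Int.natAbs_pos.2 hl
    exact absurd (Nat.le_of_dvd hpos this) (by omega)
  refine ⟨q, hqp, by omega, key l1 h1 (by omega), key l2 h2 (by omega), ?_⟩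
  intro h
  refine key (l1 - l2) (sub_ne_zero.2 h3) (by omega) ?_
  push_cast
  rw [h, sub_self]

/-- the embedding of the indices of the family `q` -/
def emb (q : ℕ) : ℕ ↪ ℕ := ⟨fun i => Nat.pair q i, fun i j h => (Nat.pair_eq_pair.1 h).2⟩

lemma exists_mem.{u} (hP : T_Powers.{u}) (k1 k2 : ℤ) (X : Type u) [MeasurableSpace X]
    (μ : Measure X) [IsProbabilityMeasure μ] (T : X ≃ᵐ X) (hT : MeasurePreserving T μ μ)
    (A : Set X) (hA : MeasurableSet A) (hA0 : 0 < μ A) :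
    ∃ s ∈ SS, 0 < μ (A ∩ (T.toEquiv ^ (k1 * s)) ⁻¹' A ∩ (T.toEquiv ^ (k2 * s)) ⁻¹' A) := by
  obtain ⟨l1, l2, h1, h2, h3, h4, h5⟩ := exists_kk k1 k2
  obtain ⟨q, hq, hq2, e1, e2, e3⟩ := exists_q l1 l2 h1 h2 h3
  haveI : Fact q.Prime := ⟨hq⟩
  obtain ⟨g, hg1, hg2, hg3⟩ := hP q X μ T A l1 l2 (fun i => (nn (Nat.pair q i) : ℤ))
    (fun i => Nat.pair q i) hq2 e1 e2 e3 inferInstance hT hA hA0.ne'
    (tendsto_atTop_mono (fun i => Nat.right_le_pair q i) tendsto_id)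
  set s : ℤ := g.sum fun i x => x * (nn (Nat.pair q i) : ℤ) with hs
  refine ⟨s, ?_, ?_⟩
  · refine ⟨q, g.embDomain (emb q), hq, ?_, ?_, ?_, ?_⟩
    · intro e he
      have : e ∈ Set.range (emb q) := by
        by_contra hne
        exact he (Finsupp.embDomain_notin_range _ _ _ hne)
      obtain ⟨i, rfl⟩ := this
      exact pp_pair hq hq2 i
    · intro e
      by_cases he : e ∈ Set.range (emb q)
      · obtain ⟨i, rfl⟩ := he
        rw [Finsupp.embDomain_apply_self]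
        exact hg1 i
      · rw [Finsupp.embDomain_notin_range _ _ _ he]
        simp
    · obtain ⟨hg21, t, ht1, ht2⟩ := hg2
      refine ⟨?_, t, ?_, ht2⟩
      · intro e
        by_cases he : e ∈ Set.range (emb q)
        · obtain ⟨i, rfl⟩ := he
          rw [Finsupp.embDomain_apply_self]
          exact hg21 i
        · rw [Finsupp.embDomain_notin_range _ _ _ he]
          simp
      · rw [← ht1]
        have : {i | (Int.castRingHom (ZMod q)) ((g.embDomain (emb q)) i) = 1} =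
            (emb q) '' {i | (Int.castRingHom (ZMod q)) (g i) = 1} := by
          ext e
          constructor
          · intro h
            by_cases he : e ∈ Set.range (emb q)
            · obtain ⟨i, rfl⟩ := he
              refine ⟨i, ?_, rfl⟩
              have h' : (Int.castRingHom (ZMod q)) ((g.embDomain (emb q)) (emb q i)) = 1 := h
              rw [Finsupp.embDomain_apply_self] at h'
              exact h'
            · have h' : (Int.castRingHom (ZMod q)) ((g.embDomain (emb q)) e) = 1 := h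
              rw [Finsupp.embDomain_notin_range _ _ _ he, map_zero] at h'
              exact absurd h' zero_ne_one
          · rintro ⟨i, hi, rfl⟩
            change (Int.castRingHom (ZMod q)) ((g.embDomain (emb q)) (emb q i)) = 1
            rw [Finsupp.embDomain_apply_self]
            exact hi
        rw [this, Set.ncard_image_of_injective _ (emb q).injective]
    · rw [hs, Finsupp.sum_embDomain]
      rfl
  · refine lt_of_lt_of_le (pos_iff_ne_zero.2 hg3) (measure_mono ?_)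
    rintro x ⟨⟨hx0, hx1⟩, hx2⟩
    have key : ∀ k : ℤ, (k = 0 ∨ k = l1 ∨ k = l2) → x ∈ (T.toEquiv ^ (k * s)) ⁻¹' A := by
      rintro k (rfl | rfl | rfl)
      · rw [zero_mul, zpow_zero]
        exact hx0
      · exact hx1
      · exact hx2
    exact ⟨⟨hx0, key k1 h4⟩, key k2 h5⟩

theorem c5.{u} : T_C5.{u} := by
  intro hP hC
  obtain ⟨Ω, mΩ, ν, T1, T2, B, hν, hT1, hT2, hcomm, hB, hB0, hbad⟩ :=
    hC pp nn (fun e => e) pp_prime nn_pos nn_dvd nn_sum
  have hSS : ∀ s ∈ SS, ν (B ∩ (T1.toEquiv ^ s) ⁻¹' B ∩ (T2.toEquiv ^ s) ⁻¹' B) = 0 := by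
    rintro s ⟨q, g, hq, h1, h2, h3, rfl⟩
    exact hbad q g hq h1 h2 h3
  have h0 : (0 : ℤ) ∉ SS := by
    intro h
    have := hSS 0 h
    rw [zpow_zero, zpow_zero] at this
    apply hB0
    have h' : B ∩ ((1 : Equiv.Perm Ω) : Ω → Ω) ⁻¹' B ∩ ((1 : Equiv.Perm Ω) : Ω → Ω) ⁻¹' B = B := by
      ext x; simp
    rw [h'] at this
    exact this
  have hne : SS.Nonempty := by
    obtain ⟨s, hs, -⟩ := exists_mem.{u} hP 0 0 PUnit (Measure.dirac PUnit.unit)
      (MeasurableEquiv.refl _) (MeasurePreserving.id _) Set.univ MeasurableSet.univ (by simp)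
    exact ⟨s, hs⟩
  obtain ⟨a, ha⟩ := (Set.to_countable SS).exists_eq_range hne
  refine ⟨a, ?_, ?_⟩
  · intro k1 k2 X _ μ _ T hT A hA hA0
    obtain ⟨s, hs, hpos⟩ := exists_mem hP k1 k2 X μ T hT A hA hA0
    have hs' := hs
    rw [ha] at hs'
    obtain ⟨n, rfl⟩ := hs'
    exact ⟨n, fun h => h0 (h ▸ hs), hpos⟩
  · intro hG
    haveI := hν
    obtain ⟨n, -, hpos⟩ := hG Ω ν T1 T2 hT1 hT2 hcomm B hB (pos_iff_ne_zero.2 hB0)
    have := hSS (a n) (by rw [ha]; exact ⟨n, rfl⟩)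
    rw [this] at hpos
    exact lt_irrefl _ hpos

end Pool.Agent.H69.BE
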